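import Pool.Agent.H525.FF.Final

/-!
# Long prime-free discs in the polynomial model of the primes

The polynomials over a finite field with `q` elements are the standard model in which Cramér's
problem on long gaps between primes is studied: the integers of size `X` become the polynomials of
degree `n`, with `q ^ n` in the place of `X` and `n` in the place of `log X`, a short interval becomes
a disc `f + h`, `deg h < m`, and the prime numbers become the irreducible polynomials.

For every finite field and every `ε > 0` we find, inside EVERY disc of radius `ε n` of polynomials of
degree `n`, a disc with at least a constant times `n (log n)² log₃ n / (log₂ n)²` elements all of which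
are reducible, in fact divisible by an irreducible polynomial of degree at most `n / log n`.  The
number of polynomials of degree `n` at such places is therefore at least `q ^ ((1 - ε) n)`.

The proof combines Rankin's choice of residues for the irreducible polynomials of small degree with
the covering sieve of the starting library (`Pool.Graph.R_seed8.H256R2.SC.J`), which is made
independent of the integers in `Pool.Agent.H525.AC.Cov`: the primes enter only through the sums of
their inverse norms.
-/

set_option autoImplicit false

namespace Pool.Agent.Results.MP_ff81b6_nt.DiscsOfReduciblePolynomials

open Polynomial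

/-- `x (log x)² log₃ x / (log₂ x)²`, with iterated natural logarithms -/
noncomputable def recordSize (x : ℝ) : ℝ :=
  x * (Real.log x) ^ 2 * Real.log (Real.log (Real.log x)) / (Real.log (Real.log x)) ^ 2

/-- **Long prime-free discs of polynomials over a finite field.** -/
theorem result (F : Type) [Field F] [Fintype F] (ε : ℝ) (hε : 0 < ε) :
    ∃ c : ℝ, 0 < c ∧ ∃ N : ℕ, ∀ n : ℕ, N ≤ n → ∀ g : F[X], g.natDegree = n →
      ∃ f : F[X], f.natDegree = n ∧ f.leadingCoeff = g.leadingCoeff ∧
        ((f - g).natDegree : ℝ) ≤ ε * n ∧
        ∀ h : F[X], (Fintype.card F : ℝ) ^ h.natDegree ≤ c * recordSize n →
          ¬ Irreducible (f + h) ∧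
          ∃ P : F[X], Irreducible P ∧ (P.natDegree : ℝ) ≤ n / Real.log n ∧ P ∣ f + h :=
  Pool.Agent.H525.FF.main F ε hε

end Pool.Agent.Results.MP_ff81b6_nt.DiscsOfReduciblePolynomials
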