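import Pool.Agent.H525.NF.Main

/-!
# Long gaps between the prime values of the norm forms of all number fields

Let `K` be a number field of degree `d`, let `α_1, …, α_d` be linearly independent integers of `K`,
and let `F(y) = N(y_1 α_1 + ⋯ + y_d α_d)` be the norm form, a form of degree `d` in `d` variables
(for `K = ℚ` and `α = 1` this is `F(y) = y`, for `K = ℚ(i)` and `α = (1, i)` it is the sum of two
squares).  We prove that every cube of `ℤ^d` of side `T` (`T` large, the cube anywhere) contains the
centre of a small cube with at least `c f(log T)` points, where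
`f(x) = x (log x)² log₃ x / (log₂ x)²`, such that for all points `y` of the small cube the number
`F(y)` is divisible by a prime `p ≤ T ^ (1 / log log T)` and `|F(y)| > p ^ d`.  In particular the
small cube contains no point at which `F` takes a prime value (up to the sign), and no point for
which `y_1 α_1 + ⋯ + y_d α_d` is a prime element of the ring of integers.

The proof.  All is reduced to prime ideals `P` of degree one.  First stage: the primes up to
`c log T`; the medium ones are given the class zero, so that a point `h` is left only if `F(h)` is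
smooth (Rankin's method for ideals), or divisible by a large prime ideal of degree one (lattice point
counting in ideals and Mertens' theorem for `K`), or by a prime ideal of higher degree, or if a
conjugate is small; then the greedy choice for the small primes.  Second stage: the covering theorem
for abstract sieving primes (file `H525/AC/Cov`) for the prime ideals of degree one with norm between
`(log T)²` and `T ^ (c / log log T)`, which needs Mertens' theorem for the prime ideals of degree
one with the constant one, and equidistribution of the points of a box of `ℤ^d` modulo products of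
such ideals.
-/

set_option autoImplicit false

open NumberField

namespace Pool.Agent.Results.MP_ff81b6_nt.GapsOfNormForms

/-- `f(x) = x (log x)² log₃ x / (log₂ x)²`, where `log_k` is the `k`-fold iterated logarithm. -/
noncomputable def f (x : ℝ) : ℝ :=
  x * (Real.log x) ^ 2 * Real.log (Real.log (Real.log x)) / (Real.log (Real.log x)) ^ 2

section

variable {K : Type} [Field K] [NumberField K] {ι : Type} [Fintype ι]

/-- The integer `∑ y_i α_i` of `K`. -/
noncomputable def elt (α : ι → 𝓞 K) (y : ι → ℤ) : 𝓞 K := ∑ i, y i • α i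

/-- The norm form `F(y) = N(∑ y_i α_i)`. -/
noncomputable def F (α : ι → 𝓞 K) (y : ι → ℤ) : ℤ := Algebra.norm ℤ (elt α y)

lemma not_prime_elt {z : 𝓞 K} {P : Ideal (𝓞 K)} (hP : (Ideal.absNorm P).Prime) (hz : z ∈ P)
    (hlt : (Ideal.absNorm P : ℤ) < |Algebra.norm ℤ z|) : ¬ Prime z := by
  intro hp
  have h1 : (Ideal.span {z}).IsPrime := (Ideal.span_singleton_prime hp.ne_zero).2 hp
  have h2 : Ideal.span {z} ≠ ⊥ := by
    rw [Ne, Ideal.span_singleton_eq_bot]
    exact hp.ne_zero
  have h3 := h1.isMaximal h2
  have h4 := Pool.Agent.H525.NF.isPrime_of hP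
  have h5 : Ideal.span {z} = P :=
    h3.eq_of_le h4.ne_top ((Ideal.span_singleton_le_iff_mem _).2 hz)
  rw [← h5, Ideal.absNorm_span_singleton, ← Int.abs_eq_natAbs] at hlt
  exact lt_irrefl _ hlt

end

/-- **Main theorem.** -/
theorem result (K : Type) [Field K] [NumberField K] (ι : Type) [Fintype ι] (α : ι → 𝓞 K)
    (hα : LinearIndependent ℤ α) (hd : Fintype.card ι = Module.finrank ℚ K) :
    ∃ c : ℝ, 0 < c ∧ ∃ T₀ : ℝ, ∀ T : ℝ, T₀ ≤ T → ∀ u : ι → ℤ, ∃ x : ι → ℤ,
      (∀ i, u i ≤ x i ∧ (x i : ℝ) ≤ u i + T) ∧
      c * f (Real.log T) ≤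
        Nat.card {y : ι → ℤ // ∀ i, |((y i - x i : ℤ) : ℝ)| ^ Fintype.card ι ≤
          c * f (Real.log T)} ∧
      ∀ y : ι → ℤ, (∀ i, |((y i - x i : ℤ) : ℝ)| ^ Fintype.card ι ≤ c * f (Real.log T)) →
        ¬ Prime (F α y) ∧ ¬ Prime (elt α y) ∧
        ∃ p : ℕ, p.Prime ∧ (p : ℝ) ≤ T ^ (1 / Real.log (Real.log T)) ∧ (p : ℤ) ∣ F α y ∧
          (p : ℤ) ^ Fintype.card ι < |F α y| := by
  obtain ⟨c, hc, T₀, hmain⟩ := Pool.Agent.H525.NF.main α hα hd
  have hd0 : 0 < Fintype.card ι := by rw [hd]; exact Module.finrank_pos
  obtain ⟨L₀, hL₀⟩ := Pool.Agent.H525.NF.ev_main 1 1 one_pos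
  refine ⟨c, hc, max (max T₀ 1) (Real.exp L₀), ?_⟩
  intro T hT u
  have hT1 : 1 ≤ T := (le_max_right _ _).trans ((le_max_left _ _).trans hT)
  have hT0 : 0 < T := by linarith
  have hL : L₀ ≤ Real.log T := by
    rw [Real.le_log_iff_exp_le hT0]; exact (le_max_right _ _).trans hT
  obtain ⟨x, hx, hv⟩ := hmain T ((le_max_left _ _).trans ((le_max_left _ _).trans hT)) u
  refine ⟨x, hx, ?_, ?_⟩
  · -- the number of the points
    obtain ⟨g1, g2, g3, g4, g5, g6, g7, g8⟩ := hL₀ (Real.log T) hL _ _ _ rfl rfl rfl
    have hf0 : 0 < c * f (Real.log T) := by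
      have h1 : 0 < Real.log T := by
        have h2 : 0 < Real.log (Real.log T) ^ 3 := by
          have : 0 < Real.log (Real.log T) := by linarith
          positivity
        linarith
      have h2 : 0 < Real.log (Real.log (Real.log (Real.log T))) := by linarith
      have h3 : 0 < Real.log (Real.log (Real.log T)) := by linarith
      have h4 : 0 < Real.log (Real.log T) := by linarith
      have h5 : 0 < f (Real.log T) := by
        unfold f
        positivity
      positivity
    set A : ℝ := c * f (Real.log T) with hA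
    set d := Fintype.card ι with hdd
    set q : ℝ := A ^ ((1:ℝ) / d) with hq
    have hq0 : 0 < q := Real.rpow_pos_of_pos hf0 _
    have hqd : q ^ d = A := by
      rw [hq, ← Real.rpow_natCast, ← Real.rpow_mul hf0.le, one_div,
        inv_mul_cancel₀ (by exact_mod_cast hd0.ne'), Real.rpow_one]
    set R : ℕ := ⌊q⌋₊ with hR
    have hmem : ∀ y : ι → ℤ, y ∈ Pool.Agent.H525.NF.Box (fun i => x i - (R : ℤ)) (2 * R + 1) ↔
        ∀ i, |((y i - x i : ℤ) : ℝ)| ^ d ≤ A := by
      intro y
      rw [Pool.Agent.H525.NF.mem_Box]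
      apply forall_congr'
      intro i
      have h1 : |((y i - x i : ℤ) : ℝ)| ^ d ≤ A ↔ (y i - x i).natAbs ≤ R := by
        rw [← hqd, pow_le_pow_iff_left₀ (abs_nonneg _) hq0.le hd0.ne', hR, Nat.le_floor_iff hq0.le,
          Nat.cast_natAbs, Int.cast_abs]
      rw [h1]
      push_cast
      omega
    have h2 := Nat.subtype_card _ hmem
    rw [h2, Pool.Agent.H525.NF.card_Box, ← hqd]
    push_cast
    apply pow_le_pow_left₀ hq0.le
    have := Nat.lt_floor_add_one q
    rw [← hR] at this
    linarith [Nat.cast_nonneg (α := ℝ) R]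
  · intro y hy
    obtain ⟨P, h1, h2, h3, h4⟩ := hv (y - x) (fun i => by
      have := hy i
      rw [Pi.sub_apply]
      exact this)
    have hxy : x + (y - x) = y := by abel
    rw [hxy] at h2 h4
    have hth : Pool.Agent.H525.NF.th α y = elt α y := Pool.Agent.H525.NF.th_apply α y
    rw [hth] at h2 h4
    have h5 : ((Ideal.absNorm P : ℕ) : ℤ) ^ Fintype.card ι < |F α y| := by
      have : ((Ideal.absNorm P : ℕ) : ℝ) ^ Fintype.card ι < ((|F α y| : ℤ) : ℝ) := by
        rw [Int.cast_abs]
        exact h4
      exact_mod_cast this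
    have h6 : (Ideal.absNorm P : ℤ) < |F α y| := by
      refine lt_of_le_of_lt ?_ h5
      exact le_self_pow₀ (by exact_mod_cast h1.one_lt.le) hd0.ne'
    have h7 : (Ideal.absNorm P : ℤ) ∣ F α y := Ideal.absNorm_dvd_norm_of_mem h2
    refine ⟨?_, not_prime_elt h1 h2 h6, Ideal.absNorm P, h1, ?_, h7, h5⟩
    · intro hpr
      have h8 : Associated (Ideal.absNorm P : ℤ) (F α y) :=
        (Nat.prime_iff_prime_int.1 h1).associated_of_dvd hpr h7
      have h9 := Int.associated_iff_natAbs.1 h8
      rw [Int.natAbs_natCast] at h9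
      rw [h9, ← Int.abs_eq_natAbs] at h6
      exact lt_irrefl _ h6
    · have h8 : (0:ℝ) < Ideal.absNorm P := by exact_mod_cast h1.pos
      rw [← Real.log_le_log_iff h8 (Real.rpow_pos_of_pos hT0 _), Real.log_rpow hT0]
      refine h3.trans (le_of_eq ?_)
      ring

end Pool.Agent.Results.MP_ff81b6_nt.GapsOfNormForms
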