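import Pool.Agent.H525.ISO.Final

set_option autoImplicit false

/-!
# Prime numbers which are isolated among the primes of a number field

Let `K` be a number field of degree `d`.  We prove that every reduced residue class `a` modulo `q` has, for
large `X`, at least `X ^ c` prime numbers `p ≤ X` such that for all nonzero integers `γ` of `K` with
`|σ γ| ^ d ≤ c log X log₂X log₄X / (log₃X)²` for all embeddings `σ` (this is a cube about `0` with volume a constant
times Rankin's size) the integer `p + γ` of `K` is not a prime element; its norm even has a prime divisor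
`ℓ ≤ log X`.  If all primes of the class are inert in `K` (for instance `K = ℚ(i)`, `q = 4`, `a = 3`), then the
`p` themselves are prime elements of `K`, the only ones in a large disc about them.

The proof.  We need classes `b ℓ` modulo the prime numbers `ℓ ≤ y`, `y` a small multiple of `log X`, such that no
`ℓ` divides `b ℓ`, and every `γ ≠ 0` of the cube satisfies `b ℓ + γ ∈ P` for some prime ideal `P` above some `ℓ`.
The classes of all prime ideals above `ℓ` are tied, and the class zero is forbidden; so the tiny and the medium
primes get the class `1`, which leaves the `γ` for which `1 + γ` is a unit times a smooth number, or has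
a large prime ideal factor, or a factor of higher degree, or is small at a place (Rankin's method for ideals, the
number of generators of an ideal in a box, Mertens' theorem for `K`).  The small primes get their classes by the method of
conditional expectations (the product over `ℓ` of `1 - h(ℓ) / (ℓ - 1)`, where `h(ℓ)` is the number of the prime
ideals of degree one above `ℓ`; two such ideals give different classes outside few `ℓ`), and the remaining `γ`
get one prime each among the `ℓ` in `(y / 2, y]` with `h(ℓ) > 0`, which are sufficiently many by the prime ideal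
theorem.  Finally a theorem of Linnik type for the modulus `q` times the product of the `ℓ`, from which one prime
(the exceptional one) is left out, gives the primes `p`.
-/

namespace Pool.Agent.Results.MP_ff81b6_nt.IsolatedPrimesInNumberFields

open NumberField Filter

/-- `log X log₂X log₄X / (log₃X)²`, the size of the classical lower bound (Rankin) for the largest gap between
primes up to `X` -/
noncomputable def rankinSize (X : ℝ) : ℝ :=
  Real.log X * Real.log (Real.log X) * Real.log (Real.log (Real.log (Real.log X))) /
    Real.log (Real.log (Real.log X)) ^ 2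

/-- No other integer of `K` in the cube with centre `p` which is given by `‖σ γ‖ ^ d ≤ V` for all embeddings `σ`
(`d` is the degree of `K`) is a prime element, and all of them have a norm with a prime divisor `ℓ ≤ z`. -/
def Isolated (K : Type) [Field K] [NumberField K] (p : ℕ) (V z : ℝ) : Prop :=
  ∀ γ : 𝓞 K, γ ≠ 0 → (∀ σ : K →+* ℂ, ‖σ (γ : K)‖ ^ Module.finrank ℚ K ≤ V) →
    ¬ Prime ((p : 𝓞 K) + γ) ∧
      ∃ ℓ : ℕ, ℓ.Prime ∧ (ℓ : ℝ) ≤ z ∧ (ℓ : ℤ) ∣ Algebra.norm ℤ ((p : 𝓞 K) + γ)

/-- For every number field `K` and every reduced class `a` modulo `q` at least `X ^ c` prime numbers `p ≤ X` in the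
class are isolated among the primes of `K` in a cube of volume a constant times Rankin's size. -/
theorem result (K : Type) [Field K] [NumberField K] (q a : ℕ) (hq : 0 < q) (ha : a.Coprime q) :
    ∃ c : ℝ, 0 < c ∧ ∀ᶠ X : ℝ in atTop,
      X ^ c ≤ (Nat.card {p : ℕ // p.Prime ∧ (p : ℝ) ≤ X ∧ p ≡ a [MOD q] ∧
        Isolated K p (c * rankinSize X) (Real.log X)} : ℝ) := by
  classical
  obtain ⟨c, hc, h⟩ := Pool.Agent.H525.ISO.final K q a hq ha
  refine ⟨c, hc, ?_⟩
  filter_upwards [h, eventually_ge_atTop 1] with X hX hX1
  refine hX.trans (le_of_eq ?_)
  rw [Nat.cast_inj]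
  symm
  apply Nat.subtype_card
  intro p
  rw [Finset.mem_filter, Finset.mem_Icc]
  constructor
  · rintro ⟨⟨h1, h2⟩, h3, h4, h5⟩
    exact ⟨h3, (Nat.le_floor_iff (by linarith)).1 h2, h4, h5⟩
  · rintro ⟨h3, h2, h4, h5⟩
    exact ⟨⟨h3.one_lt.le, (Nat.le_floor_iff (by linarith)).2 h2⟩, h3, h4, h5⟩

end Pool.Agent.Results.MP_ff81b6_nt.IsolatedPrimesInNumberFields
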