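import Pool.Agent.H531.CP.Fin

set_option autoImplicit false

/-!
# Cramér's constant for gaps in progressions, in the random sieve model of Banks, Ford and Tao

For every prime `p` a residue class `a p` modulo `p` is drawn uniformly and independently. The random primes are
the integers `n ≥ 3` that are in none of the classes `a p mod p` with `p ≤ zBFT n`, where the sieving limit `zBFT n` is
the largest `m` with `∏_{p ≤ m} (1 - 1 / p)⁻¹ ≤ log n`.

The theorem: almost surely, for every `δ > 0`, for all large `X` and all `w` between `δ log X` and `(1 - δ) log X`, with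
`q = ∏_{p ≤ w} p`, the largest gap between consecutive random primes `≤ X` in one residue class modulo `q` (over all
the classes) is `(1 + O(δ)) φ(q) log² X`.
-/

open MeasureTheory ProbabilityTheory Filter Topology

namespace Pool.Agent.Results.MP_ff81b6_nt.RandomSievePrimorialGaps

/-- `V m = ∏ (1 - 1 / p)` over the primes `p ≤ m` -/
noncomputable def V (m : ℕ) : ℝ := ∏ p ∈ (Finset.range (m + 1)).filter Nat.Prime, (1 - 1 / (p : ℝ))

/-- the classes `a p` are independent, and `a p` is uniform on `0, …, p - 1` for every prime `p` -/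
structure Model {Ω : Type} [MeasurableSpace Ω] (P : Measure Ω) (a : ℕ → Ω → ℕ) : Prop where
  measurable : ∀ p, Measurable (a p)
  independent : iIndepFun a P
  uniform : ∀ p, p.Prime → ∀ r < p, P.real {ω | a p ω = r} = 1 / p

/-- the sieving limit of Banks, Ford and Tao: the largest `m` with `∏_{p ≤ m} (1 - 1 / p)⁻¹ ≤ log n` -/
noncomputable def zBFT (n : ℕ) : ℕ := sSup {m : ℕ | (V m)⁻¹ ≤ Real.log n}

/-- the set of the random primes, for the sieving limits `z` -/
def R {Ω : Type} (z : ℕ → ℕ) (a : ℕ → Ω → ℕ) (ω : Ω) : Set ℕ :=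
  {n | 3 ≤ n ∧ ∀ p ≤ z n, p.Prime → n % p ≠ a p ω}

/-- the sieving limits: nondecreasing, with survival probability asymptotic to `1 / log n` -/
def Limits (z : ℕ → ℕ) : Prop := Monotone z ∧ Tendsto (fun n => V (z n) * Real.log n) atTop (𝓝 1)

/-- the gaps `n' - n` between consecutive elements `n < n' ≤ X` of the intersection of `S` with one residue class
modulo `q` -/
def gaps (S : Set ℕ) (q X : ℕ) : Set ℕ :=
  {g | ∃ n n' : ℕ, n ∈ S ∧ n' ∈ S ∧ n < n' ∧ n' ≤ X ∧ n ≡ n' [MOD q] ∧
    (∀ m, n < m → m < n' → m ≡ n [MOD q] → m ∉ S) ∧ g = n' - n}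

/-- the largest of these gaps, over all the residue classes modulo `q` (`0` if there are no gaps) -/
noncomputable def maxGap (S : Set ℕ) (q X : ℕ) : ℕ := sSup (gaps S q X)

/-- **The largest gap between random primes in a progression modulo a primorial.** -/
theorem result :
    (∃ (Ω : Type) (_ : MeasurableSpace Ω) (P : Measure Ω) (a : ℕ → Ω → ℕ), Model P a) ∧ Limits zBFT ∧
    ∀ (z : ℕ → ℕ), Limits z → ∀ (Ω : Type) [MeasurableSpace Ω] (P : Measure Ω) (a : ℕ → Ω → ℕ), Model P a →
      ∀ᵐ ω ∂P, ∀ δ : ℝ, 0 < δ → ∀ᶠ X : ℕ in atTop, ∀ w : ℕ,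
        δ * Real.log X ≤ w → w ≤ (1 - δ) * Real.log X →
          |(maxGap (R z a ω) (primorial w) X : ℝ) / (Nat.totient (primorial w) * Real.log X ^ 2) - 1| ≤ δ := by
  refine ⟨?_, ⟨Pool.Agent.T2H32.BF.z0_mono, Pool.Agent.T2H32.BF.z0_lim⟩, ?_⟩
  · obtain ⟨Ω, hΩ, P, a, h⟩ := Pool.Agent.T2H32.BF.exists_model
    exact ⟨Ω, hΩ, P, a, h.measurable, h.independent, h.uniform⟩
  · intro z hz Ω _ P a h
    have hM : Pool.Agent.T2H32.BF.Model P a := ⟨h.measurable, h.independent, h.uniform⟩
    filter_upwards [Pool.Agent.H531.CP.main hM z hz.1 hz.2] with ω hω δ hδ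
    filter_upwards [hω δ hδ, eventually_ge_atTop 3] with X hX hX3 w hw1 hw2
    obtain ⟨h1, h2⟩ := hX w hw1 hw2
    have e : maxGap (R z a ω) (primorial w) X =
        Pool.Agent.H531.CP.LG (Pool.Agent.T2H32.BF.R z fun p => a p ω) (primorial w) X := rfl
    rw [e]
    have hX0 : (3 : ℝ) ≤ X := by exact_mod_cast hX3
    have hlog : 0 < Real.log X := Real.log_pos (by linarith)
    have hφ : (0 : ℝ) < Nat.totient (primorial w) := by exact_mod_cast Nat.totient_pos.2 (primorial_pos w)
    have hD : 0 < (Nat.totient (primorial w) : ℝ) * Real.log X ^ 2 := by positivity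
    rw [abs_le]
    constructor
    · have h3 : 1 - δ ≤ (Pool.Agent.H531.CP.LG (Pool.Agent.T2H32.BF.R z fun p => a p ω) (primorial w) X : ℝ) /
          ((Nat.totient (primorial w) : ℝ) * Real.log X ^ 2) := by
        rw [le_div_iff₀ hD]
        exact h1
      linarith
    · have h3 : (Pool.Agent.H531.CP.LG (Pool.Agent.T2H32.BF.R z fun p => a p ω) (primorial w) X : ℝ) /
          ((Nat.totient (primorial w) : ℝ) * Real.log X ^ 2) ≤ 1 + δ := by
        rw [div_le_iff₀ hD]
        exact h2
      linarith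

end Pool.Agent.Results.MP_ff81b6_nt.RandomSievePrimorialGaps
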